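import Mathlib

/-!
Definitions for the project on linear groups (Moebius disjointness for reduced group C*-algebras of
linear groups).
-/

open MeasureTheory
open scoped LinearAlgebra.Projectivization Matrix

namespace Pool.Agent.Helper40.Lin

/-- simultaneous triangularizability over the field `E` itself -/
def TriE {E : Type*} [Field E] {n : ℕ} (a b : Matrix (Fin n) (Fin n) E) : Prop :=
  ∃ P : GL (Fin n) E, ∀ i j : Fin n, j < i →
    ((P⁻¹ : GL (Fin n) E).1 * a * P.1) i j = 0 ∧ ((P⁻¹ : GL (Fin n) E).1 * b * P.1) i j = 0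

/-- simultaneous triangularizability over an algebraic closure -/
def SimTri {K : Type*} [Field K] {n : ℕ} (a b : Matrix (Fin n) (Fin n) K) : Prop :=
  TriE (a.map (algebraMap K (AlgebraicClosure K))) (b.map (algebraMap K (AlgebraicClosure K)))

/-- the projective space of `k^m` -/
def PS (k : Type*) [Field k] (m : ℕ) : Type _ := ℙ k (Fin m → k)

/-- quotient topology -/
instance {k : Type*} [NormedField k] {m : ℕ} : TopologicalSpace (PS k m) :=
  inferInstanceAs (TopologicalSpace (Quotient (projectivizationSetoid k (Fin m → k))))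

instance {k : Type*} [NormedField k] {m : ℕ} : MeasurableSpace (PS k m) := borel _

instance {k : Type*} [NormedField k] {m : ℕ} : BorelSpace (PS k m) := ⟨rfl⟩

/-- the action of an invertible matrix on the projective space -/
noncomputable def act {k : Type*} [Field k] {m : ℕ} (g : GL (Fin m) k) : PS k m → PS k m :=
  Projectivization.map (Matrix.mulVecLin g.1) (by
    intro v w h
    have h1 := congrArg (Matrix.mulVec (g⁻¹ : GL (Fin m) k).1) h
    simpa [Matrix.mulVec_mulVec, ← Matrix.GeneralLinearGroup.coe_mul] using h1)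

/-- the projective subspace of a linear subspace -/
def PF {k : Type*} [Field k] {m : ℕ} (F : Submodule k (Fin m → k)) : Set (PS k m) :=
  {x | Projectivization.submodule (K := k) (V := Fin m → k) x ≤ F}

/-- no common invariant subspace -/
def Irr {k : Type*} [Field k] {m : ℕ} (a b : GL (Fin m) k) : Prop :=
  ∀ F : Submodule k (Fin m → k), (∀ v ∈ F, a.1.mulVec v ∈ F) → (∀ v ∈ F, b.1.mulVec v ∈ F) →
    F = ⊥ ∨ F = ⊤

/-- sum of the norms of the entries -/
noncomputable def mnorm {k : Type*} [NormedField k] {m : ℕ} (M : Matrix (Fin m) (Fin m) k) : ℝ :=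
  ∑ i, ∑ j, ‖M i j‖

/-- the powers of `a` are unbounded modulo scalars -/
def Unb {k : Type*} [NormedField k] {m : ℕ} (a : GL (Fin m) k) : Prop :=
  ∀ C : ℝ, ∃ n : ℕ, C < mnorm (a ^ n).1 * mnorm ((a ^ n)⁻¹ : GL (Fin m) k).1

end Pool.Agent.Helper40.Lin
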