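import Mathlib
import Pool.Agent.Helper40.Lin.Defs
import Pool.Agent.Helper26.Lin.PT
import Pool.Agent.Helper44.Lin.SING
import Pool.Agent.Helper37.Lin.ALG1
import Pool.Agent.Helper24.Lin.ALG2
import Pool.Agent.Helper94.Lin.ALG3

open MeasureTheory Filter Topology
open scoped LinearAlgebra.Projectivization Matrix

namespace Pool.Agent.Helper40.Lin

open Pool.Agent.Helper26.Lin Pool.Agent.Helper44.Lin

universe u

/-- triangularizability is not changed when the second matrix is inverted -/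
theorem TriE.inv_right {E : Type*} [Field E] {n : ℕ} {a b : GL (Fin n) E} (h : TriE a.1 b.1) :
    TriE a.1 (b⁻¹ : GL (Fin n) E).1 := by
  obtain ⟨P, hP⟩ := h
  refine ⟨P, fun i j hij => ⟨(hP i j hij).1, ?_⟩⟩
  have h1 : ((P⁻¹ * b * P : GL (Fin n) E).1).BlockTriangular id := by
    intro i j hij
    have := (hP i j hij).2
    simpa [Matrix.mul_assoc] using this
  have h2 : (((P⁻¹ * b * P : GL (Fin n) E).1)⁻¹).BlockTriangular id :=
    Matrix.blockTriangular_inv_of_blockTriangular h1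
  have h3 := h2 (show id j < id i from hij)
  rw [← Matrix.coe_units_inv] at h3
  have h4 : ((P⁻¹ * b * P)⁻¹ : GL (Fin n) E) = P⁻¹ * b⁻¹ * P := by group
  rw [h4] at h3
  simpa [Matrix.mul_assoc] using h3

theorem map_gl {K : Type*} [Field K] {L : Type*} [Field L] (f : K →+* L) {n : ℕ}
    (a : GL (Fin n) K) : (Matrix.GeneralLinearGroup.map f a).1 = a.1.map f := by
  ext i j
  simp

theorem SimTri.inv_right {K : Type*} [Field K] {n : ℕ} {a b : GL (Fin n) K}
    (h : SimTri a.1 b.1) : SimTri a.1 (b⁻¹ : GL (Fin n) K).1 := by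
  unfold SimTri at h ⊢
  rw [← map_gl, ← map_gl] at h ⊢
  rw [map_inv]
  exact TriE.inv_right h

/-- a section of the quotient by left multiplication by a subgroup -/
theorem exists_section {Γ : Type*} [Group Γ] (H : Subgroup Γ) :
    ∃ R : Γ → H, ∀ (y : H) (x : Γ), R (y * x) = y * R x := by
  classical
  -- right cosets `H x`
  let s : Setoid Γ := QuotientGroup.rightRel H
  let rep : Γ → Γ := fun x => (Quotient.mk s x).out
  have hrep : ∀ x, x * (rep x)⁻¹ ∈ H := by
    intro x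
    have h1 : s.r (rep x) x := Quotient.exact (Quotient.out_eq (Quotient.mk s x))
    exact QuotientGroup.rightRel_apply.1 h1
  refine ⟨fun x => ⟨x * (rep x)⁻¹, hrep x⟩, fun y x => ?_⟩
  have h2 : rep (y * x) = rep x := by
    have : Quotient.mk s ((y : Γ) * x) = Quotient.mk s x := by
      apply Quotient.sound
      change s.r _ _
      rw [QuotientGroup.rightRel_apply]
      have : x * ((y : Γ) * x)⁻¹ = (y : Γ)⁻¹ := by group
      rw [this]
      exact H.inv_mem y.2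
    simp only [rep, this]
  apply Subtype.ext
  change (y : Γ) * x * (rep (y * x))⁻¹ = y * (x * (rep x)⁻¹)
  rw [h2, mul_assoc]

theorem SPACE {K : Type u} [Field K] [CharZero K] (n : ℕ) (h g : GL (Fin n) K)
    (hns : ∀ q : ℕ, 1 ≤ q → ¬ SimTri (h ^ q).1 ((g * h * g⁻¹) ^ q).1) :
    ∃ q : ℕ, 1 ≤ q ∧ ∃ (X : Type) (_ : TopologicalSpace X) (_ : CompactSpace X) (_ : T2Space X)
      (_ : MeasurableSpace X) (_ : BorelSpace X) (t s : X ≃ₜ X),
      (∀ ν ρ : Measure X, IsFiniteMeasure ν → IsFiniteMeasure ρ → Measure.map t ν = ν →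
        Measure.map s ρ = ρ → ν ⟂ₘ ρ) ∧
      ∀ r : ℕ, ∃ κin κout : GL (Fin n) K → X, ∀ (j : ℕ) (γ : GL (Fin n) K),
        κout (h ^ (q * j + r) * g * (h ^ (q * j + r))⁻¹ * γ) = t^[j] (s^[j] (κin γ)) := by
  classical
  obtain ⟨q, hq, m, hm, k, i1, i2, ψ, hirr, hunb⟩ := Pool.Agent.Helper94.Lin.ALG3_of
    (fun n t s h => Pool.Agent.Helper37.Lin.ALG1 n t s h)
    (fun m hm t s h => Pool.Agent.Helper24.Lin.ALG2 m hm t s h) n h (g * h⁻¹ * g⁻¹) (fun q hq hs => by
    apply hns q hq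
    have h1 := SimTri.inv_right hs
    have h2 : ((g * h⁻¹ * g⁻¹) ^ q)⁻¹ = (g * h * g⁻¹) ^ q := by
      rw [← inv_pow]
      congr 1
      group
    rwa [h2] at h1)
  set t₀ : Subgroup.closure ({h ^ q, (g * h⁻¹ * g⁻¹) ^ q} : Set (GL (Fin n) K)) :=
    ⟨h ^ q, Subgroup.subset_closure (by simp)⟩ with ht₀
  set s₀ : Subgroup.closure ({h ^ q, (g * h⁻¹ * g⁻¹) ^ q} : Set (GL (Fin n) K)) :=
    ⟨(g * h⁻¹ * g⁻¹) ^ q, Subgroup.subset_closure (by simp)⟩ with hs₀
  have hcomp : CompactSpace (PS k m) := PT1 m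
  have ht2 : T2Space (PS k m) := PT2 m
  let homeo : GL (Fin m) k → (PS k m ≃ₜ PS k m) := fun a =>
    { toFun := act a
      invFun := act a⁻¹
      left_inv := fun x => by rw [← (PT4 m a⁻¹ a x).1, inv_mul_cancel, (PT4 m a⁻¹ a x).2]
      right_inv := fun x => by rw [← (PT4 m a a⁻¹ x).1, mul_inv_cancel, (PT4 m a a⁻¹ x).2]
      continuous_toFun := PT3 m a
      continuous_invFun := PT3 m a⁻¹ }
  have hiter : ∀ (a : GL (Fin m) k) (j : ℕ) (x : PS k m), (homeo a)^[j] x = act (a ^ j) x := by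
    intro a j
    induction j with
    | zero => intro x; simpa using (PT4 m a a x).2.symm
    | succ j ih =>
      intro x
      rw [Function.iterate_succ, Function.comp_apply, ih, pow_succ, (PT4 m (a ^ j) a x).1]
      rfl
  refine ⟨q, hq, PS k m, inferInstance, hcomp, ht2, inferInstance, inferInstance,
    homeo (ψ t₀), homeo (ψ s₀), ?_, ?_⟩
  · intro ν ρ hν1 hρ1 hν hρ
    exact SING m (ψ t₀) (ψ s₀) hirr hunb ν ρ hν hρ
  · intro r
    -- base point
    have : NeZero m := ⟨by omega⟩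
    let o : PS k m := (Projectivization.mk k (fun _ => (1 : k)) (by
      intro h0
      have := congrFun h0 (0 : Fin m)
      simp at this) : ℙ k (Fin m → k))
    obtain ⟨R, hR⟩ := exists_section (Subgroup.closure ({h ^ q, (g * h⁻¹ * g⁻¹) ^ q} :
      Set (GL (Fin n) K)))
    refine ⟨fun γ => act (ψ (R (g * (h ^ r)⁻¹ * γ))) o, fun γ => act (ψ (R ((h ^ r)⁻¹ * γ))) o,
      fun j γ => ?_⟩
    rw [hiter, hiter]
    dsimp only
    rw [← (PT4 m _ _ _).1, ← (PT4 m _ _ _).1, ← map_pow, ← map_pow, ← map_mul, ← map_mul]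
    congr 2
    rw [mul_assoc (t₀ ^ j) (s₀ ^ j), ← hR, ← hR]
    congr 1
    have e1 : ((t₀ ^ j : Subgroup.closure ({h ^ q, (g * h⁻¹ * g⁻¹) ^ q} :
        Set (GL (Fin n) K))) : GL (Fin n) K) = h ^ (q * j) := by
      rw [Subgroup.coe_pow, pow_mul]
    have e2 : ((s₀ ^ j : Subgroup.closure ({h ^ q, (g * h⁻¹ * g⁻¹) ^ q} :
        Set (GL (Fin n) K))) : GL (Fin n) K) = g * (h ^ (q * j))⁻¹ * g⁻¹ := by
      rw [Subgroup.coe_pow]
      change ((g * h⁻¹ * g⁻¹) ^ q) ^ j = _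
      rw [← pow_mul, conj_pow, inv_pow]
    rw [e1, e2]
    have e3 : h ^ (q * j + r) = h ^ r * h ^ (q * j) := by rw [← pow_add, add_comm]
    rw [e3]
    group

end Pool.Agent.Helper40.Lin
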