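import Mathlib
import Pool.Agent.Helper40.Lin.Defs
import Pool.Agent.Helper79.Lin.GENC
import Pool.Agent.Helper77.Lin.MAINC
import Pool.Agent.Helper40.Lin.SPACE

open MeasureTheory Filter Topology
open scoped LinearAlgebra.Projectivization Matrix

namespace Pool.Agent.Helper40.Lin

open Pool.Agent.Helper40.Mob Pool.Agent.Helper79.Lin Pool.Agent.Helper77.Lin

universe u v w

theorem MAIN {K : Type w} [Field K] [CharZero K] (n : ℕ) (G : Subgroup (GL (Fin n) K))
    (h : GL (Fin n) K) (hG : ∀ g ∈ G, h * g * h⁻¹ ∈ G)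
    (hcl : ∀ g ∈ G, ∀ q : ℕ, 1 ≤ q → SimTri (h ^ q).1 ((g * h * g⁻¹) ^ q).1 →
      ∃ m : ℕ, 1 ≤ m ∧ ∃ c : GL (Fin n) K,
        h ^ m * (g * h * g⁻¹) ^ m = c * ((g * h * g⁻¹) ^ m * h ^ m) ∧
          Commute c (h ^ m) ∧ Commute c ((g * h * g⁻¹) ^ m))
    {A : Type u} [CStarAlgebra A] (U : G → unitary A)
    (hU : ∀ g g', ∃ c : ℂ, (U g : A) * (U g' : A) = c • (U (g * g') : A))
    (hspan : ∀ a : A, a ∈ closure ((Submodule.span ℂ (Set.range fun g => (U g : A)) :
      Submodule ℂ A) : Set A))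
    (τ : A →L[ℂ] ℂ) (hτ : IsState τ) (hτU : ∀ g, g ≠ 1 → τ (U g : A) = 0)
    (hfaith : ∀ a, (∀ x y, τ (x * a * y) = 0) → a = 0)
    (α : A →⋆ₐ[ℂ] A)
    (hα : ∀ g : G, ∃ c : ℂ, α (U g : A) = c • (U ⟨h * g * h⁻¹, hG g g.2⟩ : A)) (a : A) :
    TwistedDisjoint α a := by
  classical
  let θ : G → G := fun g => ⟨h * g * h⁻¹, hG g g.2⟩
  have hθ : ∀ (j : ℕ) (g : G), ((θ^[j] g : G) : GL (Fin n) K) = h ^ j * g * (h ^ j)⁻¹ := by
    intro j
    induction j with
    | zero => intro g; simp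
    | succ j ih =>
      intro g
      rw [Function.iterate_succ', Function.comp_apply]
      change h * ((θ^[j] g : G) : GL (Fin n) K) * h⁻¹ = _
      rw [ih, pow_succ']
      group
  apply MAINC U hU τ hτ hτU hfaith hspan θ α hα
  intro g
  by_cases hs : ∀ q : ℕ, 1 ≤ q → ¬ SimTri (h ^ q).1 (((g : GL (Fin n) K) * h *
      (g : GL (Fin n) K)⁻¹) ^ q).1
  · right
    intro ρ hρ
    obtain ⟨q, hq, X, i1, i2, i3, i4, i5, t, s, hsing, hκ⟩ := SPACE n h (g : GL (Fin n) K) hs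
    refine GENC U hU τ hτ hτU hfaith hspan θ α hα g q hq t s hsing (fun r _ => ?_) ρ hρ
    obtain ⟨κin, κout, hκ⟩ := hκ r
    refine ⟨fun γ => κin γ, fun γ => κout γ, fun j γ => ?_⟩
    rw [← hκ]
    change κout _ = _
    congr 1
    rw [Subgroup.coe_mul, hθ]
  · left
    push Not at hs
    obtain ⟨q, hq, hs⟩ := hs
    obtain ⟨m, hm, c, hc, hc1, hc2⟩ := hcl g g.2 q hq hs
    have hb : ((g : GL (Fin n) K) * h * (g : GL (Fin n) K)⁻¹) ^ m =
        (g : GL (Fin n) K) * h ^ m * (g : GL (Fin n) K)⁻¹ := conj_pow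
    set a := h ^ m with ha
    set b := ((g : GL (Fin n) K) * h * (g : GL (Fin n) K)⁻¹) ^ m with hb'
    have h1 : ((gdiff θ m g : G) : GL (Fin n) K) = a * b⁻¹ := by
      rw [gdiff, Subgroup.coe_mul, hθ, ← ha, hb, Subgroup.coe_inv]
      group
    have h2 : ((gdiff θ m (gdiff θ m g) : G) : GL (Fin n) K) = c⁻¹ := by
      rw [gdiff, Subgroup.coe_mul, hθ, Subgroup.coe_inv, h1, ← ha]
      have e1 : b⁻¹ * a * b = c * a := by
        rw [mul_assoc, hc, ← mul_assoc, ← mul_assoc, (hc2.inv_right).eq.symm]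
        group
      have e2 : b⁻¹ * a⁻¹ * b = a⁻¹ * c⁻¹ := by
        have := congrArg (fun x => x⁻¹) e1
        simpa [mul_assoc] using this
      calc a * (a * b⁻¹) * a⁻¹ * (a * b⁻¹)⁻¹ = a * a * (b⁻¹ * a⁻¹ * b) * a⁻¹ := by group
        _ = a * c⁻¹ * a⁻¹ := by rw [e2]; group
        _ = c⁻¹ := by rw [← (hc1.inv_left).eq]; group
    have h3 : gdiff θ m (gdiff θ m (gdiff θ m g)) = 1 := by
      apply Subtype.ext
      rw [gdiff, Subgroup.coe_mul, hθ, Subgroup.coe_inv, h2, ← ha, Subgroup.coe_one,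
        ← (hc1.inv_left).eq]
      group
    have h4 : gdiff θ m 1 = 1 := by
      apply Subtype.ext
      rw [gdiff, Subgroup.coe_mul, hθ]
      simp
    have h5 : ∀ i : ℕ, (gdiff θ m)^[i + 3] g = 1 := by
      intro i
      induction i with
      | zero => exact h3
      | succ i ih => rw [show i + 1 + 3 = (i + 3) + 1 from rfl, Function.iterate_succ',
          Function.comp_apply, ih, h4]
    have h6 : Commute (gdiff θ m g) (gdiff θ m (gdiff θ m g)) := by
      apply Subtype.ext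
      rw [Subgroup.coe_mul, Subgroup.coe_mul, h1, h2]
      exact ((hc1.inv_left).mul_right (hc2.inv_left.inv_right)).symm.eq
    refine ⟨m, hm, 3, ?_, h5 0⟩
    intro i j hi hj
    match i, hi, j, hj with
    | 1, _, 1, _ => exact Commute.refl _
    | 1, _, 2, _ => exact h6
    | 2, _, 1, _ => exact h6.symm
    | 2, _, 2, _ => exact Commute.refl _
    | i + 3, _, j, _ => rw [h5]; exact Commute.one_left _
    | i, _, j + 3, _ => rw [h5]; exact Commute.one_right _

end Pool.Agent.Helper40.Lin
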